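import Pool.Agent.Y128.WD.Sharp

/-!
# Weak diamond and uniformization on trees without stationary antichains

Q1 asks whether `2 ^ ℵ₀ < 2 ^ ℵ₁` implies that for every `ℵ₁`-tree `T` without a stationary
antichain and every ladder system `C` some monochromatic 2-colouring of `C` has no
`T`-uniformization.  The answer is yes.

Idea. By the weak diamond there is `g : ω₁ → {0, 1}` such that for every subtree `S` and every
`φ : S → {0, 1}`, at stationarily many limit `δ` the colour `g δ` differs from the colour decoded from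
`φ` along a node `s` of height `δ` chosen (from `S` and `φ` below `δ`) among those with all
predecessors in `S`.  If `φ` uniformizes `g` then `s` is not in `S`, so `s` is a minimal node
outside `S`; these nodes form an antichain, with stationarily many heights.
-/

set_option autoImplicit false

open Set Ordinal Cardinal

namespace Pool.Agent.Results.MP_66bd88_lc.NoUniformization

/-- A tree is a partially ordered set in which the set of predecessors of every node is
well-ordered. -/
class IsTree (T : Type) [PartialOrder T] : Prop where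
  wo : ∀ t : T, IsWellOrder (Set.Iio t) (· < ·)

attribute [instance] IsTree.wo

section Tree

variable {T : Type} [PartialOrder T] [IsTree T]

/-- The height of a node is the order type of its set of predecessors. -/
noncomputable def ht (t : T) : Ordinal.{0} := Ordinal.type (α := Set.Iio t) (· < ·)

/-- `S` is a subtree of `T`: it is nonempty, downward closed and pruned, i.e. every `s ∈ S` has
extensions in `S` of arbitrarily large height below `ω₁`. -/
structure IsSubtree (S : Set T) : Prop where
  nonempty : S.Nonempty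
  lower : ∀ s ∈ S, ∀ u ≤ s, u ∈ S
  pruned : ∀ s ∈ S, ∀ β < ω_ 1, ∃ t ∈ S, s ≤ t ∧ β ≤ ht t

/-- An antichain of `T` is stationary if the set of the heights of its nodes is a stationary subset
of `ω₁`. -/
def IsStationaryAntichain (A : Set T) : Prop :=
  IsAntichain (· ≤ ·) A ∧ IsStationary {δ : Set.Iio (ω_ 1 : Ordinal.{0}) | ∃ a ∈ A, ht a = δ.1}

end Tree

/-- An `ℵ₁`-tree: a tree of height `ω₁` (every node has height below `ω₁`, and every level below
`ω₁` is nonempty), all of whose levels are countable. -/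
structure IsAleph1Tree (T : Type) [PartialOrder T] [IsTree T] : Prop where
  ht_lt : ∀ t : T, ht t < ω_ 1
  level_nonempty : ∀ α < ω_ 1, ∃ t : T, ht t = α
  level_countable : ∀ α : Ordinal.{0}, {t : T | ht t = α}.Countable

/-- A ladder system: for every countable limit ordinal `α`, the set `C α` is a cofinal subset of `α`
of order type `ω`, i.e. the range of a strictly increasing sequence cofinal in `α`. -/
def IsLadderSystem (C : Ordinal.{0} → Set Ordinal.{0}) : Prop :=
  ∀ α < ω_ 1, Order.IsSuccLimit α → ∃ e : ℕ → Ordinal.{0}, StrictMono e ∧ Set.range e = C α ∧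
    (∀ n, e n < α) ∧ ∀ β < α, ∃ n, β < e n

/-- A 2-colouring of `C` is a function `f`, where `f α ξ` is the colour of `ξ ∈ C α`.  It is
monochromatic if for every countable limit ordinal `α` the colour `f α ξ` is the same for all
`ξ ∈ C α`. -/
def Monochromatic (C : Ordinal.{0} → Set Ordinal.{0}) (f : Ordinal.{0} → Ordinal.{0} → Bool) :
    Prop :=
  ∀ α < ω_ 1, Order.IsSuccLimit α → ∃ c : Bool, ∀ ξ ∈ C α, f α ξ = c

/-- The function `φ : S → {0, 1}` on the subtree `S` of `T` is a `T`-uniformization of the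
2-colouring `f` of `C`: for every `s ∈ S` of limit height `α`, for all but finitely many `ξ ∈ C α`
the value of `φ` at the predecessor `u` of `s` of height `ξ` is `f α ξ`. -/
def IsUniformization {T : Type} [PartialOrder T] [IsTree T] (C : Ordinal.{0} → Set Ordinal.{0})
    (f : Ordinal.{0} → Ordinal.{0} → Bool) (S : Set T) (φ : S → Bool) : Prop :=
  IsSubtree S ∧ ∀ s ∈ S, Order.IsSuccLimit (ht s) →
    {ξ | ξ ∈ C (ht s) ∧ ¬ ∃ u : S, u.1 < s ∧ ht u.1 = ξ ∧ φ u = f (ht s) ξ}.Finite

/-- `unif_2^c(T, C)`: every monochromatic 2-colouring of `C` has a `T`-uniformization. -/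
def Unif (T : Type) [PartialOrder T] [IsTree T] (C : Ordinal.{0} → Set Ordinal.{0}) : Prop :=
  ∀ f, Monochromatic C f → ∃ (S : Set T) (φ : S → Bool), IsUniformization C f S φ

theorem omega_one_eq : (ω_ 1 : Ordinal.{0}) = (Order.succ Cardinal.aleph0.{0}).ord := by
  rw [Cardinal.succ_aleph0, Cardinal.ord_aleph]

theorem isStationary_congr {o o' : Ordinal.{0}} (h : o = o') (P : Ordinal.{0} → Prop)
    (hs : IsStationary {δ : Set.Iio o | P δ.1}) : IsStationary {δ : Set.Iio o' | P δ.1} := by
  subst h
  exact hs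

/-- **Theorem.** If `2 ^ ℵ₀ < 2 ^ ℵ₁` then `¬ unif_2^c(T, C)` for every `ℵ₁`-tree `T` with no
stationary antichain and every ladder system `C`. -/
theorem result (h2 : (2 : Cardinal.{0}) ^ (ℵ₀ : Cardinal.{0}) < 2 ^ (ℵ_ 1 : Cardinal.{0}))
    (T : Type) [PartialOrder T] [IsTree T] (hT : IsAleph1Tree T)
    (hA : ¬ ∃ A : Set T, IsStationaryAntichain A)
    (C : Ordinal.{0} → Set Ordinal.{0}) (hC : IsLadderSystem C) : ¬ Unif T C := by
  classical
  intro hU
  apply hA
  have hT' : Pool.Agent.Y128.WD.IsTree T := ⟨IsTree.wo⟩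
  have hht : ∀ t : T, Pool.Agent.Y128.WD.ht t = ht t := fun t => rfl
  have h2' : (2 : Cardinal.{0}) ^ Cardinal.aleph0.{0} < 2 ^ (Order.succ Cardinal.aleph0.{0}) := by
    rw [Cardinal.succ_aleph0]
    exact h2
  have hlev : Pool.Agent.Y128.WD.LevelsLE Cardinal.aleph0 T := by
    intro α
    exact Cardinal.mk_le_aleph0_iff.2 (hT.level_countable α).to_subtype
  have hC' : Pool.Agent.Y128.WD.IsLadderSystem C := by
    intro α hα hlim
    exact hC α (by rw [omega_one_eq]; exact hα) hlim
  have hU' : Pool.Agent.Y128.WD.UnifTwo T C := by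
    intro g
    obtain ⟨S, φ, hS, hφ⟩ := hU (fun α _ => g α) (fun α _ _ => ⟨g α, fun _ _ => rfl⟩)
    refine ⟨S, fun t => if h : t ∈ S then (φ ⟨t, h⟩).toNat else 0, ⟨hS.lower, ?_⟩, ?_⟩
    · intro β
      obtain ⟨s, hs⟩ := hS.nonempty
      obtain ⟨t, ht1, -, ht2⟩ := hS.pruned s hs β.1 (by rw [omega_one_eq]; exact β.2)
      exact ⟨t, ht1, ht2⟩
    · intro s hs hlim
      refine (hφ s hs hlim).subset ?_
      rintro ξ ⟨hξ, hne⟩
      refine ⟨hξ, fun ⟨u, hu1, hu2, hu3⟩ => hne ⟨u.1, hu1, hu2, ?_⟩⟩
      show (if h : u.1 ∈ S then (φ ⟨u.1, h⟩).toNat else 0) = (g (ht s)).toNat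
      rw [dif_pos u.2, hu3]
  obtain ⟨A, hA1, hA2⟩ := Pool.Agent.Y128.WD.antichain_of_ladder h2' hlev hC' hU'
  refine ⟨A, hA1, ?_⟩
  refine isStationary_congr omega_one_eq.symm (fun δ => ∃ a ∈ A, ht a = δ) ?_
  exact hA2.mono (fun δ hδ => hδ.2)

end Pool.Agent.Results.MP_66bd88_lc.NoUniformization
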